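import Pool.Agent.RHO.Stmts3

/-!
# MP_ca8ef3_an, row PRJ: projection along a vector
-/

set_option autoImplicit false

namespace Pool.Agent.RHO.H15c

/-- The projection of `Pt (Fin (h + 1))` along `e`, where `e j = 1`. -/
def prj {h : ℕ} (e : Pt (Fin (h + 1))) (j : Fin (h + 1)) :
    Pt (Fin (h + 1)) →ₗ[ZMod 2] Pt (Fin h) where
  toFun v := fun l => v (j.succAbove l) + v j * e (j.succAbove l)
  map_add' v w := by
    funext l
    simp only [Pi.add_apply]
    ring
  map_smul' c v := by
    funext l
    simp only [Pi.smul_apply, smul_eq_mul, RingHom.id_apply]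
    ring

theorem zmod2_cases (a : ZMod 2) : a = 0 ∨ a = 1 := by
  revert a
  decide

theorem prjS : PRJStmt := by
  intro h e he
  obtain ⟨j, hj⟩ : ∃ j, e j ≠ 0 := by
    by_contra hcon
    push Not at hcon
    exact he (funext hcon)
  have hj1 : e j = 1 := by
    rcases zmod2_cases (e j) with h0 | h1
    · exact absurd h0 hj
    · exact h1
  have hadd : ∀ a : ZMod 2, a + a = 0 := by decide
  refine ⟨prj e j, ?_, ?_⟩
  · funext l
    change e (j.succAbove l) + e j * e (j.succAbove l) = 0
    rw [hj1, one_mul, hadd]
  · intro v w hvw
    have hl : ∀ l : Fin (h + 1), v l + w l = (v j + w j) * e l := by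
      intro l
      rcases Fin.eq_self_or_eq_succAbove j l with hl | ⟨l', hl⟩
      · rw [hl, hj1, mul_one]
      · have h1 := congrFun hvw l'
        change v (j.succAbove l') + v j * e (j.succAbove l') =
          w (j.succAbove l') + w j * e (j.succAbove l') at h1
        rw [hl]
        have h2 : v (j.succAbove l') + w (j.succAbove l') - (v j + w j) * e (j.succAbove l')
            = (w (j.succAbove l') + w (j.succAbove l')) -
              (v j * e (j.succAbove l') + v j * e (j.succAbove l')) := by
          linear_combination h1
        rw [hadd, hadd, sub_zero] at h2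
        exact sub_eq_zero.mp h2
    have hsub : ∀ a b : ZMod 2, a + b = 0 → a = b := by decide
    have hone : ∀ a b c : ZMod 2, a + b = c → a = b + c := by decide
    rcases zmod2_cases (v j + w j) with h0 | h1
    · left
      funext l
      have h2 := hl l
      rw [h0, zero_mul] at h2
      exact hsub _ _ h2
    · right
      funext l
      have h2 := hl l
      rw [h1, one_mul] at h2
      exact hone _ _ _ h2

end Pool.Agent.RHO.H15c
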